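import Pool.Agent.helper32.NN.Spec

set_option autoImplicit false

open Submodule

noncomputable section

namespace Pool.Agent.NN

universe u v w

theorem STP_l {K : Type u} {U : Type v} [Field K] [Ring U] [Algebra K U] {P Q R : Submodule K U}
    (h : P ≤ Q) : P * R ≤ Q * R := mul_le_mul' h le_rfl

theorem STP_r {K : Type u} {U : Type v} [Field K] [Ring U] [Algebra K U] {P Q R : Submodule K U}
    (h : P ≤ Q) : R * P ≤ R * Q := mul_le_mul' le_rfl h

theorem STP_cod {K : Type u} {U : Type v} {M : Type w} [Field K] [AddCommGroup U] [Module K U]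
    [AddCommGroup M] [Module K M] [FiniteDimensional K M] (I : Submodule K U) (φ : U →ₗ[K] M) :
    ∃ F : Submodule K U, F ≤ I ∧ F.FG ∧ I ≤ (I ⊓ LinearMap.ker φ) ⊔ F := by
  obtain ⟨t, ht⟩ : (I.map φ).FG := IsNoetherian.noetherian _
  have h1 : ∀ r : t, ∃ x ∈ I, φ x = r := by
    intro r
    have h2 : (r : M) ∈ I.map φ := by
      rw [← ht]
      exact subset_span r.2
    exact Submodule.mem_map.1 h2
  choose g hg1 hg2 using h1
  have hF : span K (Set.range g) ≤ I := by
    rw [span_le]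
    rintro _ ⟨r, rfl⟩
    exact hg1 r
  refine ⟨span K (Set.range g), hF, fg_span (Set.finite_range g), ?_⟩
  intro x hx
  have h2 : φ x ∈ (span K (Set.range g)).map φ := by
    have h3 : φ x ∈ I.map φ := mem_map_of_mem hx
    rw [← ht] at h3
    have h4 : span K (t : Set M) ≤ (span K (Set.range g)).map φ := by
      rw [span_le]
      intro r hr
      exact ⟨g ⟨r, hr⟩, subset_span ⟨_, rfl⟩, hg2 ⟨r, hr⟩⟩
    exact h4 h3
  obtain ⟨f, hf, hfx⟩ := h2
  rw [Submodule.mem_sup]
  refine ⟨x - f, ⟨I.sub_mem hx (hF hf), ?_⟩, f, hf, by abel⟩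
  rw [SetLike.mem_coe, LinearMap.mem_ker, map_sub, hfx, sub_self]

/-- the linear conditions on `s` -/
theorem STP_W {K : Type u} {U : Type v} [Field K] [Ring U] [Algebra K U] (l : U →ₗ[K] K)
    (I C : Submodule K U) (hC : C.FG) :
    ∃ W F : Submodule K U, W ≤ I ∧ F ≤ I ∧ F.FG ∧ I ≤ W ⊔ F ∧
      ∀ s ∈ W, ∀ b ∈ C, ∀ b' ∈ C, l (b * (s * b')) = 0 := by
  obtain ⟨S, hS⟩ := hC
  let φ : U →ₗ[K] (S × S → K) := LinearMap.pi (fun q =>
    l ∘ₗ (LinearMap.mulLeft K (q.1 : U)) ∘ₗ (LinearMap.mulRight K (q.2 : U)))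
  obtain ⟨F, hF1, hF2, hF3⟩ := STP_cod I φ
  refine ⟨I ⊓ LinearMap.ker φ, F, inf_le_left, hF1, hF2, hF3, ?_⟩
  rintro s ⟨_, hs⟩ b hb b' hb'
  have h1 : ∀ x ∈ S, ∀ y ∈ S, l (x * (s * y)) = 0 := by
    intro x hx y hy
    have h2 : φ s = 0 := hs
    have h3 := congrFun h2 (⟨x, hx⟩, ⟨y, hy⟩)
    exact h3
  have h2 : ∀ y ∈ S, ∀ x ∈ C, l (x * (s * y)) = 0 := by
    intro y hy
    have h3 : C ≤ LinearMap.ker (l ∘ₗ (LinearMap.mulRight K (s * y))) := by
      rw [← hS, span_le]
      intro x hx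
      exact h1 x hx y hy
    intro x hx
    exact h3 hx
  have h3 : C ≤ LinearMap.ker (l ∘ₗ (LinearMap.mulLeft K b) ∘ₗ (LinearMap.mulLeft K s)) := by
    rw [← hS, span_le]
    intro y hy
    exact h2 y hy b hb
  exact h3 hb'

/-- the enlarged subspace -/
theorem STP_B {K : Type u} {U : Type v} [Field K] [Ring U] [Algebra K U] (A T I B : Submodule K U)
    (hT : IsId A T) (hI : IsId A I) (hII : I * I ≤ T) (l : U →ₗ[K] K)
    (hBA : B ≤ A) (hB : B.FG) (hBB : B * B ≤ B ⊔ T) (hlB : ∀ b ∈ B, l b = 0) (s : U) (hs : s ∈ I)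
    (hls : ∀ b ∈ 1 ⊔ B, ∀ b' ∈ 1 ⊔ B, l (b * (s * b')) = 0) :
    ∃ B' : Submodule K U, B ≤ B' ∧ s ∈ B' ∧ B' ≤ A ∧ B'.FG ∧ B' * B' ≤ B' ⊔ T ∧
      (∀ b ∈ B', l b = 0) := by
  obtain ⟨hTA, hAT, hTA'⟩ := hT
  obtain ⟨hIA, hAI, hIA'⟩ := hI
  have hsI : span K {s} ≤ I := by
    rw [span_singleton_le_iff_mem]
    exact hs
  have hsA : span K {s} ≤ A := hsI.trans hIA
  have e1 : (1 ⊔ B) * I ≤ I := by
    rw [Submodule.sup_mul, one_mul]
    exact sup_le le_rfl ((STP_l hBA).trans hAI)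
  have e2 : I * (1 ⊔ B) ≤ I := by
    rw [Submodule.mul_sup, mul_one]
    exact sup_le le_rfl ((STP_r hBA).trans hIA')
  have e3 : (1 ⊔ B) * T ≤ T := by
    rw [Submodule.sup_mul, one_mul]
    exact sup_le le_rfl ((STP_l hBA).trans hAT)
  have e4 : T * (1 ⊔ B) ≤ T := by
    rw [Submodule.mul_sup, mul_one]
    exact sup_le le_rfl ((STP_r hBA).trans hTA')
  have hXI : (1 ⊔ B) * (span K {s} * (1 ⊔ B)) ≤ I :=
    (STP_r ((STP_l hsI).trans e2)).trans e1
  have b1 : B * (1 ⊔ B) ≤ (1 ⊔ B) ⊔ T := by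
    rw [Submodule.mul_sup, mul_one]
    exact sup_le (le_sup_of_le_left le_sup_right) (hBB.trans (sup_le_sup_right le_sup_right T))
  have b2 : (1 ⊔ B) * B ≤ (1 ⊔ B) ⊔ T := by
    rw [Submodule.sup_mul, one_mul]
    exact sup_le (le_sup_of_le_left le_sup_right) (hBB.trans (sup_le_sup_right le_sup_right T))
  refine ⟨B ⊔ (1 ⊔ B) * (span K {s} * (1 ⊔ B)), le_sup_left, ?_, sup_le hBA (hXI.trans hIA),
    ?_, ?_, ?_⟩
  · have h1 : (1 : U) ∈ (1 ⊔ B : Submodule K U) := by
      exact (le_sup_left : (1 : Submodule K U) ≤ 1 ⊔ B) (Submodule.one_le.1 le_rfl)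
    have h2 := Submodule.mul_mem_mul h1 (Submodule.mul_mem_mul (Submodule.mem_span_singleton_self s) h1)
    rw [one_mul, mul_one] at h2
    exact (le_sup_right : _ ≤ B ⊔ (1 ⊔ B) * (span K {s} * (1 ⊔ B))) h2
  · have h1 : (1 : Submodule K U).FG := by
      rw [Submodule.one_eq_span]
      exact Submodule.fg_span_singleton 1
    exact hB.sup ((h1.sup hB).mul ((Submodule.fg_span_singleton s).mul (h1.sup hB)))
  · generalize hX : (1 ⊔ B) * (span K {s} * (1 ⊔ B)) = X at hXI ⊢
    rw [Submodule.sup_mul, Submodule.mul_sup, Submodule.mul_sup]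
    refine sup_le (sup_le ?_ ?_) (sup_le ?_ ?_)
    · exact hBB.trans (sup_le_sup_right le_sup_left T)
    · rw [← hX, ← mul_assoc]
      refine (STP_l b1).trans ?_
      rw [Submodule.sup_mul, hX]
      refine sup_le (le_sup_of_le_left le_sup_right) (le_sup_of_le_right ?_)
      rw [← mul_assoc]
      exact (STP_l ((STP_r hsA).trans hTA')).trans e4
    · rw [← hX, mul_assoc, mul_assoc]
      refine (STP_r (STP_r b2)).trans ?_
      rw [Submodule.mul_sup (span K {s}), Submodule.mul_sup (1 ⊔ B), hX]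
      refine sup_le (le_sup_of_le_left le_sup_right) (le_sup_of_le_right ?_)
      exact (STP_r ((STP_l hsA).trans hAT)).trans e3
    · exact le_sup_of_le_right ((mul_le_mul' hXI hXI).trans hII)
  · have h1 : B ⊔ (1 ⊔ B) * (span K {s} * (1 ⊔ B)) ≤ LinearMap.ker l := by
      refine sup_le hlB ?_
      rw [Submodule.mul_le]
      intro b hb y hy
      have h2 : span K {s} * (1 ⊔ B) ≤ LinearMap.ker (l ∘ₗ (LinearMap.mulLeft K b)) := by
        rw [Submodule.mul_le]
        intro x hx b' hb'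
        obtain ⟨c, rfl⟩ := Submodule.mem_span_singleton.1 hx
        rw [LinearMap.mem_ker, LinearMap.comp_apply, LinearMap.mulLeft_apply, smul_mul_assoc,
          mul_smul_comm, map_smul, hls b hb b' hb', smul_zero]
      exact h2 hy
    intro b hb
    exact h1 hb

theorem STP_list (hM : MOD_stmt.{u, v}) {K : Type u} {U : Type v} [Field K] [Ring U] [Algebra K U]
    (A : Submodule K U) (hC : Cex K U A) (T : Submodule K U) (hT : IsId A T) (l : U →ₗ[K] K)
    (L : List (Submodule K U)) :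
    (∀ J ∈ L, IsId A J ∧ J * A = J ∧ J * J ≤ T) → ∀ (B : Submodule K U) (j : ℕ) (p : U),
      B ≤ A → B.FG → B * B ≤ B ⊔ T → (∀ b ∈ B, l b = 0) → p ∈ B ^ j →
      ¬ span K {p} * L.prod ≤ T →
      ∃ B' : Submodule K U, B ≤ B' ∧ B' ≤ A ∧ B'.FG ∧ B' * B' ≤ B' ⊔ T ∧ (∀ b ∈ B', l b = 0) ∧
        ¬ B' ^ (j + L.length) ≤ T := by
  induction L with
  | nil =>
    intro _ B j p hBA hB hBB hlB hp hpT
    refine ⟨B, le_rfl, hBA, hB, hBB, hlB, ?_⟩
    intro h
    apply hpT
    rw [List.prod_nil, mul_one, span_singleton_le_iff_mem]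
    exact h hp
  | cons I L ih =>
    intro hL B j p hBA hB hBB hlB hp hpT
    obtain ⟨hI, hIf, hII⟩ := hL I List.mem_cons_self
    have h1 : (1 : Submodule K U).FG := by
      rw [Submodule.one_eq_span]
      exact Submodule.fg_span_singleton 1
    obtain ⟨W, F, hWI, hFI, hF, hIWF, hWl⟩ := STP_W l I (1 ⊔ B) (h1.sup hB)
    -- the right submodule `Z`
    let Z : Submodule K U :=
      { carrier := {s | s ∈ I ∧ ∀ y ∈ L.prod, p * s * y ∈ T}
        add_mem' := by
          rintro a b ⟨ha, ha'⟩ ⟨hb, hb'⟩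
          refine ⟨I.add_mem ha hb, fun y hy => ?_⟩
          rw [mul_add, add_mul]
          exact T.add_mem (ha' y hy) (hb' y hy)
        zero_mem' := ⟨I.zero_mem, fun y _ => by rw [mul_zero, zero_mul]; exact T.zero_mem⟩
        smul_mem' := by
          rintro c a ⟨ha, ha'⟩
          refine ⟨I.smul_mem c ha, fun y hy => ?_⟩
          rw [mul_smul_comm, smul_mul_assoc]
          exact T.smul_mem c (ha' y hy) }
    have hZI : Z ≤ I := fun s hs => hs.1
    have hZA : Z * A ≤ Z := by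
      rw [Submodule.mul_le]
      rintro s ⟨hs, hs'⟩ a ha
      refine ⟨hI.2.2 (Submodule.mul_mem_mul hs ha), fun y hy => ?_⟩
      cases L with
      | nil =>
        rw [List.prod_nil] at hy hs'
        obtain ⟨c, rfl⟩ := Submodule.mem_one.1 hy
        have h2 : p * s ∈ T := by
          have := hs' 1 (Submodule.one_le.1 le_rfl)
          rwa [mul_one] at this
        have h3 : p * s * a ∈ T := hT.2.2 (Submodule.mul_mem_mul h2 ha)
        have h4 : p * (s * a) * algebraMap K U c = c • (p * s * a) := by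
          rw [← Algebra.commutes, ← Algebra.smul_def, mul_assoc]
        rw [h4]
        exact T.smul_mem c h3
      | cons J L' =>
        have h2 : a * y ∈ (J :: L').prod := by
          rw [List.prod_cons] at hy ⊢
          have h3 : A * (J * L'.prod) ≤ J * L'.prod := by
            rw [← mul_assoc]
            exact STP_l
              (hL J (List.mem_cons_of_mem _ List.mem_cons_self)).1.2.1
          exact h3 (Submodule.mul_mem_mul ha hy)
        have h3 := hs' _ h2
        have h4 : p * (s * a) * y = p * s * (a * y) := by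
          simp only [mul_assoc]
        rw [h4]
        exact h3
    have hex : ∃ s ∈ W, s ∉ Z := by
      by_contra hcon
      push Not at hcon
      have hZ : Z = I := hM K U A hC I Z F hI hIf hZI hZA hFI hF
        (hIWF.trans (sup_le_sup_right hcon F))
      apply hpT
      rw [Submodule.mul_le]
      intro x hx y hy
      obtain ⟨c, rfl⟩ := Submodule.mem_span_singleton.1 hx
      rw [smul_mul_assoc]
      apply T.smul_mem
      rw [List.prod_cons] at hy
      have h2 : I * L.prod ≤ T.comap (LinearMap.mulLeft K p) := by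
        rw [Submodule.mul_le]
        intro s hs z hz
        have h3 : s ∈ Z := by rw [hZ]; exact hs
        have h4 := h3.2 z hz
        rw [Submodule.mem_comap, LinearMap.mulLeft_apply, ← mul_assoc]
        exact h4
      exact h2 hy
    obtain ⟨s, hsW, hsZ⟩ := hex
    obtain ⟨B1, hBB1, hsB1, hB1A, hB1F, hB1B1, hlB1⟩ := STP_B A T I B hT hI hII l hBA hB hBB
      hlB s (hWI hsW) (hWl s hsW)
    have hps : p * s ∈ B1 ^ (j + 1) := by
      rw [pow_succ]
      exact Submodule.mul_mem_mul (pow_le_pow_left' hBB1 j hp) hsB1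
    have hns : ¬ span K {p * s} * L.prod ≤ T := by
      intro h
      apply hsZ
      refine ⟨hWI hsW, fun y hy => ?_⟩
      exact h (Submodule.mul_mem_mul (Submodule.mem_span_singleton_self _) hy)
    obtain ⟨B', h1', h2', h3', h4', h5', h6'⟩ := ih (fun J hJ => hL J (List.mem_cons_of_mem _ hJ))
      B1 (j + 1) (p * s) hB1A hB1F hB1B1 hlB1 hps hns
    refine ⟨B', hBB1.trans h1', h2', h3', h4', h5', ?_⟩
    rw [List.length_cons]
    have e : j + (L.length + 1) = j + 1 + L.length := by omega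
    rw [e]
    exact h6'

theorem STP (hM : MOD_stmt.{u, v}) : STP_stmt.{u, v} := by
  intro K U _ _ _ A hC T hT l _ n I _ hI hprod B hBA hB hBB hlB
  obtain ⟨B', h1, h2, h3, h4, h5, h6⟩ := STP_list hM A hC T hT l (List.ofFn I) (by
    intro J hJ
    rw [List.mem_ofFn] at hJ
    obtain ⟨i, rfl⟩ := hJ
    exact hI i) B 0 1 hBA hB hBB hlB (by
      rw [pow_zero]
      exact Submodule.one_le.1 le_rfl) (by
      rw [← Submodule.one_eq_span, one_mul]
      exact hprod)
  refine ⟨B', h1, h2, h3, h4, h5, ?_⟩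
  rw [List.length_ofFn, zero_add] at h6
  exact h6

end Pool.Agent.NN
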